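import Mathlib

/-!
# Planar sections of simply connected two-convex open sets: a counterexample

For every `n ≥ 4` we construct an open, contractible, two-convex set `Ω ⊆ ℝ^n` and a 2-plane `P`
such that a connected component of `Ω ∩ P` has nontrivial fundamental group.

With coordinates `x, y, z, t` (and further coordinates ignored), `Ω` is the complement of the
closed set `K = K_a ∪ K_b ∪ K_1 ∪ K_2 ∪ K_B`, where
* `K_a = {z + 3t - 2x + 16|y| ≤ 8, x + |y| ≤ 1}`,
* `K_b = {3z + t + 2x + 16|y| ≤ 8, -x + |y| ≤ 1}`,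
* `K_1 = {x ≤ |y| - 1, t ≥ 1 - |y|}`, `K_2 = {x ≥ 1 - |y|, z ≥ 1 - |y|}`, `K_B = {|y| ≥ 1}`,
and `P = {z = t = 0, ...}`.

* Two-convexity: every point of `K` is the centre of a flat disc of codimension two inside `K`
  (`flatAll`), and the complement of a closed set with this property is two-convex
  (`twoConvex_compl`, by a maximum argument in barycentric coordinates).
* Contractibility: push up in `z` and/or `t`, slide to `x = 0`, and contract in a convex set.
* The section is a strip `|y| < 1` minus a compact set containing the origin; a loop around this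
  compact set is essential.
-/

open Set Filter Topology unitInterval

namespace Pool.Agent.Results.MP_a4ef96_gt.PlanarSectionDisproof

/-- A set `Ω` in a real vector space is two-convex: for every tetrahedron (the convex hull of four
affinely independent points `v 0, v 1, v 2, v 3`), if three of its four faces (those opposite to
the vertices `v j`, `j ≠ i₀`) are contained in `Ω`, then the whole solid tetrahedron is. -/
def TwoConvex {E : Type*} [AddCommGroup E] [Module ℝ E] (Ω : Set E) : Prop :=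
  ∀ v : Fin 4 → E, AffineIndependent ℝ v → ∀ i₀ : Fin 4,
    (∀ j, j ≠ i₀ → convexHull ℝ (v '' {k | k ≠ j}) ⊆ Ω) → convexHull ℝ (Set.range v) ⊆ Ω

lemma mem_face {E : Type*} [AddCommGroup E] [Module ℝ E] (v : Fin 4 → E) (w : Fin 4 → ℝ)
    (hw : w ∈ stdSimplex ℝ (Fin 4)) (j : Fin 4) (hj : w j = 0) :
    ∑ i, w i • v i ∈ convexHull ℝ (v '' {k | k ≠ j}) := by
  classical
  have h1 : ∑ i, w i • v i = ∑ i ∈ Finset.univ.erase j, w i • v i := by
    rw [← Finset.add_sum_erase _ _ (Finset.mem_univ j), hj, zero_smul, zero_add]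
  have h2 : ∑ i ∈ Finset.univ.erase j, w i = 1 := by
    have := hw.2
    rw [← Finset.add_sum_erase _ _ (Finset.mem_univ j), hj, zero_add] at this
    exact this
  rw [h1]
  refine (convex_convexHull ℝ _).sum_mem (fun i _ => hw.1 i) h2 (fun i hi => ?_)
  apply subset_convexHull
  exact ⟨i, by simpa using hi, rfl⟩

lemma mem_hull {E : Type*} [AddCommGroup E] [Module ℝ E] (v : Fin 4 → E) (p : E)
    (hp : p ∈ convexHull ℝ (Set.range v)) :
    ∃ w ∈ stdSimplex ℝ (Fin 4), ∑ i, w i • v i = p := by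
  classical
  rw [convexHull_range_eq_exists_affineCombination] at hp
  obtain ⟨s, w, hw0, hw1, rfl⟩ := hp
  refine ⟨fun i => if i ∈ s then w i else 0, ⟨fun i => ?_, ?_⟩, ?_⟩
  · by_cases h : i ∈ s
    · simpa [h] using hw0 i h
    · simp [h]
  · simpa [Finset.sum_ite_mem] using hw1
  · rw [Finset.affineCombination_eq_linear_combination _ _ _ hw1]
    simp [ite_smul, Finset.sum_ite_mem]

lemma exists_dir {E : Type*} [AddCommGroup E] [Module ℝ E] (v : Fin 4 → E) (f g : E →ₗ[ℝ] ℝ) :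
    ∃ w : Fin 4 → ℝ, w ≠ 0 ∧ ∑ i, w i = 0 ∧ f (∑ i, w i • v i) = 0 ∧ g (∑ i, w i • v i) = 0 := by
  classical
  let S : (Fin 4 → ℝ) →ₗ[ℝ] ℝ := ∑ i, LinearMap.proj i
  let L : (Fin 4 → ℝ) →ₗ[ℝ] E := Fintype.linearCombination ℝ v
  let T : (Fin 4 → ℝ) →ₗ[ℝ] (ℝ × ℝ × ℝ) := S.prod ((f.comp L).prod (g.comp L))
  have hT : LinearMap.ker T ≠ ⊥ := by
    apply LinearMap.ker_ne_bot_of_finrank_lt
    simp
  obtain ⟨w, hw, hw0⟩ := (Submodule.ne_bot_iff _).1 hT
  have h := LinearMap.mem_ker.1 hw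
  have h1 : S w = 0 := congrArg Prod.fst h
  have h2 : f (L w) = 0 := congrArg (fun q => q.2.1) h
  have h3 : g (L w) = 0 := congrArg (fun q => q.2.2) h
  have hL : L w = ∑ i, w i • v i := by simp [L, Fintype.linearCombination_apply]
  refine ⟨w, hw0, by simpa [S] using h1, by rwa [hL] at h2, by rwa [hL] at h3⟩

theorem twoConvex_compl {E : Type*} [NormedAddCommGroup E] [NormedSpace ℝ E] (K : Set E)
    (hK : IsClosed K)
    (h : ∀ k ∈ K, ∃ f g : E →ₗ[ℝ] ℝ, ∀ d : E, f d = 0 → g d = 0 →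
      ∀ᶠ s : ℝ in 𝓝 0, k + s • d ∈ K) : TwoConvex Kᶜ := by
  classical
  intro v _ i₀ hf p hp hpK
  obtain ⟨w₀, hw₀, hw₀p⟩ := mem_hull v p hp
  set W : Set (Fin 4 → ℝ) := {w | w ∈ stdSimplex ℝ (Fin 4) ∧ ∑ i, w i • v i ∈ K} with hW
  have hWc : IsCompact W := by
    refine (isCompact_stdSimplex ℝ (Fin 4)).inter_right ?_
    exact hK.preimage (by fun_prop)
  have hWne : W.Nonempty := ⟨w₀, hw₀, by rwa [hw₀p]⟩
  have hpos : ∀ w ∈ W, ∀ j, j ≠ i₀ → 0 < w j := by
    intro w hw j hj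
    rcases (hw.1.1 j).lt_or_eq with h0 | h0
    · exact h0
    · exact absurd hw.2 (hf j hj (mem_face v w hw.1 j h0.symm))
  -- key: choose the maximiser
  obtain ⟨ε, hε, wm, hwm, hmax, hcase⟩ : ∃ ε : ℝ, 0 < ε ∧ ∃ wm ∈ W,
      (∀ w ∈ W, w i₀ + ε * ∑ i, (w i)^2 ≤ wm i₀ + ε * ∑ i, (wm i)^2) ∧
      (0 < wm i₀ ∨ ∀ w ∈ W, w i₀ = 0) := by
    have hcont : ∀ ε : ℝ, ContinuousOn (fun w : Fin 4 → ℝ => w i₀ + ε * ∑ i, (w i)^2) W := by
      intro ε; fun_prop
    by_cases hc : ∃ w₁ ∈ W, 0 < w₁ i₀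
    · obtain ⟨w₁, hw₁, hw₁0⟩ := hc
      obtain ⟨wm, hwm, hm⟩ := hWc.exists_isMaxOn hWne (hcont (w₁ i₀ / 2))
      refine ⟨w₁ i₀ / 2, by positivity, wm, hwm, fun w hw => hm hw, Or.inl ?_⟩
      by_contra hneg
      have h0 : wm i₀ = 0 := le_antisymm (not_lt.1 hneg) (hwm.1.1 i₀)
      have h1 := hm hw₁
      have h2 : ∑ i, (wm i)^2 ≤ 1 := by
        rw [← hwm.1.2]
        refine Finset.sum_le_sum (fun i _ => ?_)
        have h3 : wm i ≤ 1 := by
          rw [← hwm.1.2]
          exact Finset.single_le_sum (fun j _ => hwm.1.1 j) (Finset.mem_univ i)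
        nlinarith [hwm.1.1 i]
      have h4 : 0 ≤ ∑ i, (w₁ i)^2 := Finset.sum_nonneg (fun i _ => sq_nonneg _)
      simp only [Set.mem_ofPred_eq] at h1
      rw [h0] at h1
      nlinarith
    · obtain ⟨wm, hwm, hm⟩ := hWc.exists_isMaxOn hWne (hcont 1)
      refine ⟨1, one_pos, wm, hwm, fun w hw => hm hw, Or.inr fun w hw => ?_⟩
      push Not at hc
      exact le_antisymm (hc w hw) (hw.1.1 i₀)
  obtain ⟨f, g, hfg⟩ := h _ hwm.2
  obtain ⟨w', hw'0, hw's, hw'f, hw'g⟩ := exists_dir v f g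
  -- wlog the i₀-th coordinate of w' is nonnegative
  obtain ⟨w', hw'0, hw's, hw'f, hw'g, hw'i⟩ : ∃ w' : Fin 4 → ℝ, w' ≠ 0 ∧ ∑ i, w' i = 0 ∧
      f (∑ i, w' i • v i) = 0 ∧ g (∑ i, w' i • v i) = 0 ∧ 0 ≤ w' i₀ := by
    rcases le_total 0 (w' i₀) with h0 | h0
    · exact ⟨w', hw'0, hw's, hw'f, hw'g, h0⟩
    · refine ⟨-w', neg_ne_zero.2 hw'0, by simpa using hw's, ?_, ?_, by simpa using h0⟩
      · simpa using hw'f
      · simpa using hw'g
  have hK' := hfg _ hw'f hw'g
  have hsum : ∀ s : ℝ, ∑ i, (wm + s • w') i • v i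
      = ∑ i, wm i • v i + s • ∑ i, w' i • v i := by
    intro s
    simp [add_smul, Finset.sum_add_distrib, Finset.smul_sum, mul_smul]
  have hone : ∀ s : ℝ, ∑ i, (wm + s • w') i = 1 := by
    intro s
    simp only [Pi.add_apply, Pi.smul_apply, smul_eq_mul, Finset.sum_add_distrib,
      ← Finset.mul_sum, hw's, hwm.1.2]
    ring
  -- for j ≠ i₀ small perturbations stay positive
  have hposev : ∀ᶠ s : ℝ in 𝓝 0, ∀ j, j ≠ i₀ → 0 < (wm + s • w') j := by
    rw [eventually_all]
    intro j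
    by_cases hj : j = i₀
    · simp [hj]
    · have : ∀ᶠ s : ℝ in 𝓝 0, 0 < wm j + s * w' j := by
        have hc : Tendsto (fun s : ℝ => wm j + s * w' j) (𝓝 0) (𝓝 (wm j)) :=
          (Continuous.tendsto' (by fun_prop) 0 _ (by simp))
        exact hc.eventually_const_lt (hpos wm hwm j hj)
      filter_upwards [this] with s hs _
      simpa using hs
  -- membership helper
  have hmem : ∀ᶠ s : ℝ in 𝓝 0, 0 ≤ (wm + s • w') i₀ → (wm + s • w') ∈ W := by
    filter_upwards [hposev, hK'] with s hs1 hs2 hs3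
    refine ⟨⟨fun j => ?_, hone s⟩, by rw [hsum]; exact hs2⟩
    by_cases hj : j = i₀
    · rw [hj]; exact hs3
    · exact (hs1 j hj).le
  -- strict convexity contradiction
  have hstrict : ¬ ∃ s : ℝ, s ≠ 0 ∧ (wm + s • w') ∈ W ∧ (wm + (-s) • w') ∈ W := by
    rintro ⟨s, hs, h1, h2⟩
    have e1 := hmax _ h1
    have e2 := hmax _ h2
    have e3 : ∑ i, ((wm + s • w') i)^2 + ∑ i, ((wm + (-s) • w') i)^2
        = 2 * ∑ i, (wm i)^2 + 2 * s^2 * ∑ i, (w' i)^2 := by
      rw [← Finset.sum_add_distrib, Finset.mul_sum, Finset.mul_sum, ← Finset.sum_add_distrib]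
      refine Finset.sum_congr rfl (fun i _ => ?_)
      simp only [Pi.add_apply, Pi.smul_apply, smul_eq_mul]
      ring
    have e4 : 0 < ∑ i, (w' i)^2 := by
      obtain ⟨i, hi⟩ := Function.ne_iff.1 hw'0
      refine Finset.sum_pos' (fun i _ => sq_nonneg _) ⟨i, Finset.mem_univ i, ?_⟩
      have : w' i ≠ 0 := hi
      positivity
    have e5 : (wm + s • w') i₀ + (wm + (-s) • w') i₀ = 2 * wm i₀ := by
      simp only [Pi.add_apply, Pi.smul_apply, smul_eq_mul]
      ring
    have e6 : 0 < s^2 := by positivity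
    have e7 : 0 < ε * (2 * s^2 * ∑ i, (w' i)^2) := by positivity
    nlinarith
  have hmem' : ∀ᶠ s : ℝ in 𝓝 0, 0 ≤ (wm + (-s) • w') i₀ → (wm + (-s) • w') ∈ W := by
    have : Tendsto (fun s : ℝ => -s) (𝓝 0) (𝓝 0) := Continuous.tendsto' (by fun_prop) 0 _ (by simp)
    exact this.eventually hmem
  have hright : ∃ᶠ s : ℝ in 𝓝 0, 0 < s := by
    have : ∃ᶠ s : ℝ in 𝓝[Set.Ioi (0:ℝ)] (0:ℝ), 0 < s :=
      (eventually_mem_nhdsWithin (a := (0:ℝ)) (s := Set.Ioi (0:ℝ))).frequently
    exact this.filter_mono nhdsWithin_le_nhds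
  rcases hcase with hc | hc
  · have hi0 : ∀ᶠ s : ℝ in 𝓝 0, 0 < (wm + s • w') i₀ := by
      have hc' : Tendsto (fun s : ℝ => wm i₀ + s * w' i₀) (𝓝 0) (𝓝 (wm i₀)) :=
          (Continuous.tendsto' (by fun_prop) 0 _ (by simp))
      filter_upwards [hc'.eventually_const_lt hc] with s hs
      simpa using hs
    have hi0' : ∀ᶠ s : ℝ in 𝓝 0, 0 < (wm + (-s) • w') i₀ := by
      have : Tendsto (fun s : ℝ => -s) (𝓝 0) (𝓝 0) :=
        Continuous.tendsto' (by fun_prop) 0 _ (by simp)
      exact this.eventually hi0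
    obtain ⟨s, hs, h1, h2, h3, h4⟩ := (hright.and_eventually
      (hmem.and (hmem'.and (hi0.and hi0')))).exists
    exact hstrict ⟨s, hs.ne', h1 h3.le, h2 h4.le⟩
  · have hwm0 : wm i₀ = 0 := hc wm hwm
    rcases hw'i.lt_or_eq with hi | hi
    · obtain ⟨s, hs, h1⟩ := (hright.and_eventually hmem).exists
      have h2 : (wm + s • w') i₀ = s * w' i₀ := by simp [hwm0]
      have h3 : 0 < s * w' i₀ := mul_pos hs hi
      have h4 := hc _ (h1 (by rw [h2]; exact h3.le))
      rw [h2] at h4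
      exact h3.ne' h4
    · obtain ⟨s, hs, h1, h2⟩ := (hright.and_eventually (hmem.and hmem')).exists
      have h3 : ∀ r : ℝ, (wm + r • w') i₀ = 0 := by intro r; simp [hwm0, ← hi]
      exact hstrict ⟨s, hs.ne', h1 (h3 s).ge, h2 (h3 (-s)).ge⟩


/-- condition a -/
def CA (x y z t : ℝ) : Prop := z + 3 * t - 2 * x + 16 * |y| ≤ 8 ∧ x + |y| ≤ 1
/-- condition b -/
def CB (x y z t : ℝ) : Prop := 3 * z + t + 2 * x + 16 * |y| ≤ 8 ∧ -x + |y| ≤ 1
/-- condition 1 -/
def C1 (x y _z t : ℝ) : Prop := x ≤ |y| - 1 ∧ 1 - |y| ≤ t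
/-- condition 2 -/
def C2 (x y z _t : ℝ) : Prop := 1 - |y| ≤ x ∧ 1 - |y| ≤ z
/-- condition B -/
def C3 (_x y _z _t : ℝ) : Prop := 1 ≤ |y|
/-- the closed set, in coordinates -/
def CK (x y z t : ℝ) : Prop := CA x y z t ∨ CB x y z t ∨ C1 x y z t ∨ C2 x y z t ∨ C3 x y z t

lemma tnd {f : ℝ → ℝ} (hf : Continuous f) {c : ℝ} (h : f 0 < c) : ∀ᶠ s : ℝ in 𝓝 0, f s < c :=
  (hf.tendsto 0).eventually_lt_const h

lemma tnd' {f : ℝ → ℝ} (hf : Continuous f) {c : ℝ} (h : c < f 0) : ∀ᶠ s : ℝ in 𝓝 0, c < f s :=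
  (hf.tendsto 0).eventually_const_lt h

lemma flat2 (x y z t : ℝ) (h : C2 x y z t) : ∃ a b : Fin 4 → ℝ, ∀ dx dy dz dt : ℝ,
      a 0 * dx + a 1 * dy + a 2 * dz + a 3 * dt = 0 →
      b 0 * dx + b 1 * dy + b 2 * dz + b 3 * dt = 0 →
      ∀ᶠ s : ℝ in 𝓝 0, C2 (x + s * dx) (y + s * dy) (z + s * dz) (t + s * dt) := by
  obtain ⟨h1, h2⟩ := h
  rcases le_total 0 y with hy | hy
  · refine ⟨![1, 1, 0, 0], ![0, 1, 1, 0], fun dx dy dz dt h3 h4 => Eventually.of_forall fun s => ?_⟩
    simp at h3 h4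
    rw [abs_of_nonneg hy] at h1 h2
    have := le_abs_self (y + s * dy)
    have e1 : s * dx + s * dy = 0 := by rw [← mul_add, h3, mul_zero]
    have e2 : s * dy + s * dz = 0 := by rw [← mul_add, h4, mul_zero]
    constructor <;> linarith
  · refine ⟨![1, -1, 0, 0], ![0, -1, 1, 0], fun dx dy dz dt h3 h4 => Eventually.of_forall fun s => ?_⟩
    simp at h3 h4
    rw [abs_of_nonpos hy] at h1 h2
    have := neg_abs_le (y + s * dy)
    have e1 : s * dx + -(s * dy) = 0 := by rw [← mul_neg, ← mul_add, h3, mul_zero]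
    have e2 : -(s * dy) + s * dz = 0 := by rw [← mul_neg, ← mul_add, h4, mul_zero]
    constructor <;> linarith

lemma flatA (x y z t : ℝ) (h : CA x y z t) : ∃ a b : Fin 4 → ℝ, ∀ dx dy dz dt : ℝ,
      a 0 * dx + a 1 * dy + a 2 * dz + a 3 * dt = 0 →
      b 0 * dx + b 1 * dy + b 2 * dz + b 3 * dt = 0 →
      ∀ᶠ s : ℝ in 𝓝 0, CK (x + s * dx) (y + s * dy) (z + s * dz) (t + s * dt) := by
  obtain ⟨h1, h2⟩ := h
  rcases h2.lt_or_eq with h2' | h2'
  · refine ⟨![0, 1, 0, 0], ![-2, 0, 1, 3], fun dx dy dz dt h3 h4 => ?_⟩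
    simp at h3 h4
    subst h3
    have e1 : ∀ᶠ s : ℝ in 𝓝 0, x + s * dx + |y| < 1 := tnd (by fun_prop) (by simpa using h2')
    filter_upwards [e1] with s hs
    left
    have e2 : s * (-(2 * dx) + dz + 3 * dt) = 0 := by rw [h4, mul_zero]
    constructor
    · simp only [mul_zero, add_zero]; nlinarith
    · simp only [mul_zero, add_zero]; exact hs.le
  rcases h1.lt_or_eq with h1' | h1'
  · refine ⟨![1, 0, 0, 0], ![0, 1, 0, 0], fun dx dy dz dt h3 h4 => ?_⟩
    simp at h3 h4
    subst h3 h4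
    have e1 : ∀ᶠ s : ℝ in 𝓝 0, (z + s * dz) + 3 * (t + s * dt) - 2 * x + 16 * |y| < 8 :=
      tnd (by fun_prop) (by simpa using h1')
    filter_upwards [e1] with s hs
    left
    constructor
    · simp only [mul_zero, add_zero]; exact hs.le
    · simp only [mul_zero, add_zero]; exact h2
  rcases lt_trichotomy y 0 with hy | hy | hy
  · refine ⟨![1, -1, 0, 0], ![-2, -16, 1, 3], fun dx dy dz dt h3 h4 => ?_⟩
    simp at h3 h4
    rw [abs_of_neg hy] at h1' h2'
    have e1 : ∀ᶠ s : ℝ in 𝓝 0, y + s * dy < 0 := tnd (by fun_prop) (by simpa using hy)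
    filter_upwards [e1] with s hs
    left
    have e2 : s * (dx + -dy) = 0 := by rw [h3, mul_zero]
    have e3 : s * (-(2 * dx) + -(16 * dy) + dz + 3 * dt) = 0 := by rw [h4, mul_zero]
    constructor
    · rw [abs_of_neg hs]; nlinarith
    · rw [abs_of_neg hs]; nlinarith
  · subst hy
    simp at h1' h2'
    subst h2'
    by_cases hz : 1 ≤ z
    · obtain ⟨a, b, hab⟩ := flat2 1 0 z t ⟨by simp, by simpa using hz⟩
      refine ⟨a, b, fun dx dy dz dt h3 h4 => ?_⟩
      filter_upwards [hab dx dy dz dt h3 h4] with s hs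
      exact Or.inr (Or.inr (Or.inr (Or.inl hs)))
    · push Not at hz
      refine ⟨0, 0, fun dx dy dz dt _ _ => ?_⟩
      have e1 : ∀ᶠ s : ℝ in 𝓝 0, 3 * (z + s * dz) + (t + s * dt) + 2 * (1 + s * dx)
          + 16 * |0 + s * dy| < 8 := by
        refine tnd (by fun_prop) ?_
        simp
        linarith
      have e2 : ∀ᶠ s : ℝ in 𝓝 0, -(1 + s * dx) + |0 + s * dy| < 1 := by
        refine tnd (by fun_prop) ?_
        simp
      filter_upwards [e1, e2] with s hs1 hs2
      right; left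
      exact ⟨hs1.le, hs2.le⟩
  · refine ⟨![1, 1, 0, 0], ![-2, 16, 1, 3], fun dx dy dz dt h3 h4 => ?_⟩
    simp at h3 h4
    rw [abs_of_pos hy] at h1' h2'
    have e1 : ∀ᶠ s : ℝ in 𝓝 0, 0 < y + s * dy := tnd' (by fun_prop) (by simpa using hy)
    filter_upwards [e1] with s hs
    left
    have e2 : s * (dx + dy) = 0 := by rw [h3, mul_zero]
    have e3 : s * (-(2 * dx) + (16 * dy) + dz + 3 * dt) = 0 := by rw [h4, mul_zero]
    constructor
    · rw [abs_of_pos hs]; nlinarith
    · rw [abs_of_pos hs]; nlinarith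

/-- the symmetry -/
lemma CK_symm {x y z t : ℝ} : CK (-x) y t z ↔ CK x y z t := by
  simp only [CK, CA, CB, C1, C2, C3]
  constructor
  · rintro (⟨h1, h2⟩ | ⟨h1, h2⟩ | ⟨h1, h2⟩ | ⟨h1, h2⟩ | h)
    · right; left; constructor <;> linarith
    · left; constructor <;> linarith
    · right; right; right; left; constructor <;> linarith
    · right; right; left; constructor <;> linarith
    · right; right; right; right; exact h
  · rintro (⟨h1, h2⟩ | ⟨h1, h2⟩ | ⟨h1, h2⟩ | ⟨h1, h2⟩ | h)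
    · right; left; constructor <;> linarith
    · left; constructor <;> linarith
    · right; right; right; left; constructor <;> linarith
    · right; right; left; constructor <;> linarith
    · right; right; right; right; exact h

lemma flatAll (x y z t : ℝ) (h : CK x y z t) : ∃ a b : Fin 4 → ℝ, ∀ dx dy dz dt : ℝ,
      a 0 * dx + a 1 * dy + a 2 * dz + a 3 * dt = 0 →
      b 0 * dx + b 1 * dy + b 2 * dz + b 3 * dt = 0 →
      ∀ᶠ s : ℝ in 𝓝 0, CK (x + s * dx) (y + s * dy) (z + s * dz) (t + s * dt) := by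
  have hsym : ∀ x y z t : ℝ, (∃ a b : Fin 4 → ℝ, ∀ dx dy dz dt : ℝ,
      a 0 * dx + a 1 * dy + a 2 * dz + a 3 * dt = 0 →
      b 0 * dx + b 1 * dy + b 2 * dz + b 3 * dt = 0 →
      ∀ᶠ s : ℝ in 𝓝 0, CK (x + s * dx) (y + s * dy) (z + s * dz) (t + s * dt)) →
      (∃ a b : Fin 4 → ℝ, ∀ dx dy dz dt : ℝ,
      a 0 * dx + a 1 * dy + a 2 * dz + a 3 * dt = 0 →
      b 0 * dx + b 1 * dy + b 2 * dz + b 3 * dt = 0 →
      ∀ᶠ s : ℝ in 𝓝 0, CK (-x + s * dx) (y + s * dy) (t + s * dz) (z + s * dt)) := by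
    rintro x y z t ⟨a, b, hab⟩
    refine ⟨![-a 0, a 1, a 3, a 2], ![-b 0, b 1, b 3, b 2], fun dx dy dz dt h1 h2 => ?_⟩
    simp at h1 h2
    filter_upwards [hab (-dx) dy dt dz (by linarith) (by linarith)] with s hs
    rw [← CK_symm]
    convert hs using 1
    ring
  rcases h with h | h | h | h | h
  · exact flatA x y z t h
  · have := flatA (-x) y t z (by
      obtain ⟨h1, h2⟩ := h
      constructor <;> linarith)
    have := hsym _ _ _ _ this
    simpa using this
  · obtain ⟨a, b, hab⟩ := flat2 (-x) y t z (by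
      obtain ⟨h1, h2⟩ := h
      constructor <;> linarith)
    have := hsym (-x) y t z ⟨a, b, fun dx dy dz dt h3 h4 => by
      filter_upwards [hab dx dy dz dt h3 h4] with s hs
      exact Or.inr (Or.inr (Or.inr (Or.inl hs)))⟩
    simpa using this
  · obtain ⟨a, b, hab⟩ := flat2 x y z t h
    exact ⟨a, b, fun dx dy dz dt h3 h4 => by
      filter_upwards [hab dx dy dz dt h3 h4] with s hs
      exact Or.inr (Or.inr (Or.inr (Or.inl hs)))⟩
  · refine ⟨![0, 1, 0, 0], 0, fun dx dy dz dt h3 _ => Eventually.of_forall fun s => ?_⟩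
    simp at h3
    subst h3
    right; right; right; right
    simpa [C3] using h


/-- the coordinate form of the complement, with one implication per piece -/
lemma not_CK_iff {x y z t : ℝ} : ¬ CK x y z t ↔
    (|y| < 1 ∧ (x + |y| ≤ 1 → 8 < z + 3 * t - 2 * x + 16 * |y|) ∧
      (-x + |y| ≤ 1 → 8 < 3 * z + t + 2 * x + 16 * |y|) ∧
      (x ≤ |y| - 1 → t < 1 - |y|) ∧ (1 - |y| ≤ x → z < 1 - |y|)) := by
  simp only [CK, CA, CB, C1, C2, C3, not_or, not_and, not_le]
  constructor
  · rintro ⟨h1, h2, h3, h4, h5⟩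
    refine ⟨h5, fun h => ?_, fun h => ?_, h3, h4⟩
    · by_contra h6; exact absurd (h1 (not_lt.1 h6)) (not_lt.2 h)
    · by_contra h6; exact absurd (h2 (not_lt.1 h6)) (not_lt.2 h)
  · rintro ⟨h1, h2, h3, h4, h5⟩
    refine ⟨fun h => ?_, fun h => ?_, h4, h5, h1⟩
    · by_contra h6; exact absurd (h2 (not_lt.1 h6)) (not_lt.2 h)
    · by_contra h6; exact absurd (h3 (not_lt.1 h6)) (not_lt.2 h)

/-- size of the push -/
noncomputable def SS (x z t : ℝ) : ℝ := 9 + 4 * |z| + 4 * |t| + 2 * |x|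

/-- push in `z` -/
noncomputable def pa (x y z t : ℝ) : ℝ := SS x z t * max 0 (1 - |y| - x) / (1 - |y|)
/-- push in `t` -/
noncomputable def pb (x y z t : ℝ) : ℝ := SS x z t * max 0 (1 - |y| + x) / (1 - |y|)

lemma SS_pos (x z t : ℝ) : 0 < SS x z t := by unfold SS; positivity

lemma pa_nonneg {x y z t : ℝ} (hy : |y| < 1) : 0 ≤ pa x y z t := by
  have := SS_pos x z t
  have h : 0 < 1 - |y| := by linarith
  unfold pa; positivity

lemma pb_nonneg {x y z t : ℝ} (hy : |y| < 1) : 0 ≤ pb x y z t := by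
  have := SS_pos x z t
  have h : 0 < 1 - |y| := by linarith
  unfold pb; positivity

lemma pa_zero {x y z t : ℝ} (h : 1 - |y| ≤ x) : pa x y z t = 0 := by
  unfold pa; rw [max_eq_left (by linarith)]; simp

lemma pb_zero {x y z t : ℝ} (h : x ≤ |y| - 1) : pb x y z t = 0 := by
  unfold pb; rw [max_eq_left (by linarith)]; simp

lemma pa_add_pb {x y z t : ℝ} (hy : |y| < 1) : 2 * SS x z t ≤ pa x y z t + pb x y z t := by
  have h : 0 < 1 - |y| := by linarith
  have h1 := le_max_right 0 (1 - |y| - x)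
  have h2 := le_max_right 0 (1 - |y| + x)
  have h3 := SS_pos x z t
  unfold pa pb
  rw [← add_div, le_div_iff₀ h, ← mul_add]
  nlinarith

lemma good1 {x y z t s : ℝ} (hs : 0 ≤ s) (h : ¬ CK x y z t) :
    ¬ CK x y (z + s * pa x y z t) (t + s * pb x y z t) := by
  rw [not_CK_iff] at h ⊢
  obtain ⟨h1, h2, h3, h4, h5⟩ := h
  have ha := mul_nonneg hs (pa_nonneg (x := x) (z := z) (t := t) h1)
  have hb := mul_nonneg hs (pb_nonneg (x := x) (z := z) (t := t) h1)
  refine ⟨h1, fun h => ?_, fun h => ?_, fun h => ?_, fun h => ?_⟩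
  · have := h2 h; linarith
  · have := h3 h; linarith
  · rw [pb_zero h]; have := h4 h; linarith
  · rw [pa_zero h]; have := h5 h; linarith

lemma good2 {x y z t s : ℝ} (hs0 : 0 ≤ s) (hs1 : s ≤ 1) (h : ¬ CK x y z t) :
    ¬ CK ((1 - s) * x) y (z + pa x y z t) (t + pb x y z t) := by
  rw [not_CK_iff] at h ⊢
  obtain ⟨h1, h2, h3, h4, h5⟩ := h
  have ha := (pa_nonneg (x := x) (z := z) (t := t) h1)
  have hb := (pb_nonneg (x := x) (z := z) (t := t) h1)
  have hab := (pa_add_pb (x := x) (z := z) (t := t) h1)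
  have hx : |(1 - s) * x| ≤ |x| := by
    rw [abs_mul]
    have : |1 - s| ≤ 1 := by rw [abs_le]; constructor <;> linarith
    have := abs_nonneg x
    nlinarith
  have hx1 := (abs_le.1 hx).1
  have hx2 := (abs_le.1 hx).2
  have hy := abs_nonneg y
  have hz1 := neg_abs_le z
  have hz2 := le_abs_self z
  have ht1 := neg_abs_le t
  have ht2 := le_abs_self t
  have hz0 := abs_nonneg z
  have ht0 := abs_nonneg t
  have hx0 := abs_nonneg x
  unfold SS at hab
  refine ⟨h1, fun h => ?_, fun h => ?_, fun h => ?_, fun h => ?_⟩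
  · nlinarith
  · nlinarith
  · have hx' : x ≤ |y| - 1 := by
      by_contra hneg
      push Not at hneg
      rcases le_total 0 x with h0 | h0
      · nlinarith
      · nlinarith
    rw [pb_zero hx']; have := h4 hx'; linarith
  · have hx' : 1 - |y| ≤ x := by
      by_contra hneg
      push Not at hneg
      rcases le_total 0 x with h0 | h0
      · nlinarith
      · nlinarith
    rw [pa_zero hx']; have := h5 hx'; linarith

lemma good3' {x y z t : ℝ} (h : ¬ CK x y z t) :
    8 < z + pa x y z t + 3 * (t + pb x y z t) ∧ 8 < 3 * (z + pa x y z t) + (t + pb x y z t) := by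
  rw [not_CK_iff] at h
  obtain ⟨h1, h2, h3, h4, h5⟩ := h
  have ha := (pa_nonneg (x := x) (z := z) (t := t) h1)
  have hb := (pb_nonneg (x := x) (z := z) (t := t) h1)
  have hab := (pa_add_pb (x := x) (z := z) (t := t) h1)
  have hz1 := neg_abs_le z
  have ht1 := neg_abs_le t
  have hz0 := abs_nonneg z
  have ht0 := abs_nonneg t
  have hx0 := abs_nonneg x
  unfold SS at hab
  constructor <;> linarith

lemma good3 {x y z t s : ℝ} (hs0 : 0 ≤ s) (hs1 : s ≤ 1) (h : ¬ CK x y z t) :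
    ¬ CK 0 ((1 - s) * y) ((1 - s) * (z + pa x y z t) + s * 8) ((1 - s) * (t + pb x y z t) + s * 8) := by
  have h0 := good3' h
  rw [not_CK_iff] at h ⊢
  obtain ⟨h1, -, -, -, -⟩ := h
  obtain ⟨h2, h3⟩ := h0
  have hy : |(1 - s) * y| ≤ |y| := by
    rw [abs_mul]
    have : |1 - s| ≤ 1 := by rw [abs_le]; constructor <;> linarith
    have := abs_nonneg y
    nlinarith
  have hy0 := abs_nonneg ((1 - s) * y)
  have key : ∀ P : ℝ, 8 < P → 8 < (1 - s) * P + s * 32 := by
    intro P hP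
    rcases hs0.eq_or_lt with h0 | h0
    · rw [← h0]; linarith
    · nlinarith [mul_nonneg (sub_nonneg.2 hs1) (sub_nonneg.2 hP.le)]
  have k1 := key _ h2
  have k2 := key _ h3
  refine ⟨by linarith, fun h => ?_, fun h => ?_, fun h => ?_, fun h => ?_⟩
  · linarith
  · linarith
  · linarith
  · linarith

lemma homotopic_of_segment {X F : Type*} [TopologicalSpace X] [NormedAddCommGroup F]
    [NormedSpace ℝ F] {Ω : Set F} (f g : C(X, Ω))
    (h : ∀ x, ∀ s : ℝ, 0 ≤ s → s ≤ 1 → (1 - s) • (f x : F) + s • (g x : F) ∈ Ω) :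
    f.Homotopic g := by
  refine ⟨⟨⟨fun p => ⟨(1 - (p.1 : ℝ)) • (f p.2 : F) + (p.1 : ℝ) • (g p.2 : F),
    h _ _ p.1.2.1 p.1.2.2⟩, ?_⟩, ?_, ?_⟩⟩
  · fun_prop
  · intro x; simp
  · intro x; simp

section frame

variable {E : Type*} [NormedAddCommGroup E] [NormedSpace ℝ E]

/-- the open set determined by four coordinate functionals -/
def Om (co : Fin 4 → E →L[ℝ] ℝ) : Set E := {p | ¬ CK (co 0 p) (co 1 p) (co 2 p) (co 3 p)}

lemma mem_Om {co : Fin 4 → E →L[ℝ] ℝ} {p : E} :
    p ∈ Om co ↔ ¬ CK (co 0 p) (co 1 p) (co 2 p) (co 3 p) := Iff.rfl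

lemma mem_Om_y {co : Fin 4 → E →L[ℝ] ℝ} (p : Om co) : (1 - |co 1 (p : E)|) ≠ 0 := by
  have := (not_CK_iff.1 (mem_Om.1 p.2)).1
  linarith

lemma continuous_pa {co : Fin 4 → E →L[ℝ] ℝ} : Continuous (fun p : Om co =>
    pa (co 0 (p : E)) (co 1 (p : E)) (co 2 (p : E)) (co 3 (p : E))) := by
  unfold pa SS
  exact Continuous.div (by fun_prop) (by fun_prop) mem_Om_y

lemma continuous_pb {co : Fin 4 → E →L[ℝ] ℝ} : Continuous (fun p : Om co =>
    pb (co 0 (p : E)) (co 1 (p : E)) (co 2 (p : E)) (co 3 (p : E))) := by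
  unfold pb SS
  exact Continuous.div (by fun_prop) (by fun_prop) mem_Om_y

/-- new `z` coordinate -/
noncomputable def zz (co : Fin 4 → E →L[ℝ] ℝ) (p : Om co) : ℝ :=
  co 2 (p : E) + pa (co 0 (p : E)) (co 1 (p : E)) (co 2 (p : E)) (co 3 (p : E))
/-- new `t` coordinate -/
noncomputable def tt (co : Fin 4 → E →L[ℝ] ℝ) (p : Om co) : ℝ :=
  co 3 (p : E) + pb (co 0 (p : E)) (co 1 (p : E)) (co 2 (p : E)) (co 3 (p : E))

lemma continuous_zz {co : Fin 4 → E →L[ℝ] ℝ} : Continuous (zz co) :=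
  Continuous.add (by fun_prop) continuous_pa
lemma continuous_tt {co : Fin 4 → E →L[ℝ] ℝ} : Continuous (tt co) :=
  Continuous.add (by fun_prop) continuous_pb

variable (co : Fin 4 → E →L[ℝ] ℝ) (ev : Fin 4 → E)
  (hce : ∀ j k, co j (ev k) = if j = k then 1 else 0)

/-- first map -/
noncomputable def f1 : C(Om co, Om co) where
  toFun p := ⟨(p : E) + (zz co p - co 2 (p : E)) • ev 2 + (tt co p - co 3 (p : E)) • ev 3, by
    have := good1 zero_le_one (mem_Om.1 p.2)
    rw [mem_Om]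
    simpa [hce, zz, tt] using this⟩
  continuous_toFun := by
    have h1 := continuous_zz (co := co)
    have h2 := continuous_tt (co := co)
    fun_prop

/-- second map -/
noncomputable def f2 : C(Om co, Om co) where
  toFun p := ⟨(co 1 (p : E)) • ev 1 + zz co p • ev 2 + tt co p • ev 3, by
    have := good2 zero_le_one le_rfl (mem_Om.1 p.2)
    rw [mem_Om]
    simpa [hce, zz, tt] using this⟩
  continuous_toFun := by
    have h1 := continuous_zz (co := co)
    have h2 := continuous_tt (co := co)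
    fun_prop

/-- base point -/
noncomputable def base : Om co := ⟨(8 : ℝ) • ev 2 + (8 : ℝ) • ev 3, by
    rw [mem_Om, not_CK_iff]
    simp [hce]⟩

lemma hom1 : (ContinuousMap.id (Om co)).Homotopic (f1 co ev hce) := by
  refine homotopic_of_segment _ _ (fun p s hs0 hs1 => ?_)
  have := good1 hs0 (mem_Om.1 p.2)
  rw [mem_Om]
  have e0 : co 0 ((1 - s) • ((ContinuousMap.id (Om co)) p : E) + s • (f1 co ev hce p : E))
    = co 0 p := by simp [f1, hce]; ring
  have e1 : co 1 ((1 - s) • ((ContinuousMap.id (Om co)) p : E) + s • (f1 co ev hce p : E))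
    = co 1 p := by simp [f1, hce]; ring
  have e2 : co 2 ((1 - s) • ((ContinuousMap.id (Om co)) p : E) + s • (f1 co ev hce p : E))
    = co 2 p + s * pa (co 0 (p : E)) (co 1 (p : E)) (co 2 (p : E)) (co 3 (p : E)) := by
    simp [f1, hce, zz]; ring
  have e3 : co 3 ((1 - s) • ((ContinuousMap.id (Om co)) p : E) + s • (f1 co ev hce p : E))
    = co 3 p + s * pb (co 0 (p : E)) (co 1 (p : E)) (co 2 (p : E)) (co 3 (p : E)) := by
    simp [f1, hce, tt]; ring
  rw [e0, e1, e2, e3]
  exact this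

lemma hom2 : (f1 co ev hce).Homotopic (f2 co ev hce) := by
  refine homotopic_of_segment _ _ (fun p s hs0 hs1 => ?_)
  have := good2 hs0 hs1 (mem_Om.1 p.2)
  rw [mem_Om]
  have e0 : co 0 ((1 - s) • (f1 co ev hce p : E) + s • (f2 co ev hce p : E))
    = (1 - s) * co 0 p := by simp [f1, f2, hce]
  have e1 : co 1 ((1 - s) • (f1 co ev hce p : E) + s • (f2 co ev hce p : E))
    = co 1 p := by simp [f1, f2, hce]; ring
  have e2 : co 2 ((1 - s) • (f1 co ev hce p : E) + s • (f2 co ev hce p : E))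
    = zz co p := by simp [f1, f2, hce]; ring
  have e3 : co 3 ((1 - s) • (f1 co ev hce p : E) + s • (f2 co ev hce p : E))
    = tt co p := by simp [f1, f2, hce]; ring
  rw [e0, e1, e2, e3]
  exact this

lemma hom3 : (f2 co ev hce).Homotopic (ContinuousMap.const _ (base co ev hce)) := by
  refine homotopic_of_segment _ _ (fun p s hs0 hs1 => ?_)
  have := good3 hs0 hs1 (mem_Om.1 p.2)
  rw [mem_Om]
  have e0 : co 0 ((1 - s) • (f2 co ev hce p : E) +
    s • ((ContinuousMap.const _ (base co ev hce) : C(Om co, Om co)) p : E))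
    = 0 := by simp [base, f2, hce]
  have e1 : co 1 ((1 - s) • (f2 co ev hce p : E) +
    s • ((ContinuousMap.const _ (base co ev hce) : C(Om co, Om co)) p : E))
    = (1 - s) * co 1 p := by simp [base, f2, hce]
  have e2 : co 2 ((1 - s) • (f2 co ev hce p : E) +
    s • ((ContinuousMap.const _ (base co ev hce) : C(Om co, Om co)) p : E))
    = (1 - s) * zz co p + s * 8 := by simp [base, f2, hce]
  have e3 : co 3 ((1 - s) • (f2 co ev hce p : E) +
    s • ((ContinuousMap.const _ (base co ev hce) : C(Om co, Om co)) p : E))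
    = (1 - s) * tt co p + s * 8 := by simp [base, f2, hce]
  rw [e0, e1, e2, e3]
  exact this

include hce in
theorem contractible_Om : ContractibleSpace (Om co) := by
  rw [contractible_iff_id_nullhomotopic]
  exact ⟨base co ev hce, ((hom1 co ev hce).trans (hom2 co ev hce)).trans (hom3 co ev hce)⟩

end frame


open unitInterval

/-- A loop that winds once around the origin under a nonvanishing map is essential. -/
theorem nontrivial_of_winding {C : Type*} [TopologicalSpace C] (x₀ : C) (γ : Path x₀ x₀)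
    (F : C(C, {z : ℂ // z ≠ 0}))
    (hF : ∀ t : I, (F (γ t) : ℂ) = Complex.exp (2 * Real.pi * (t : ℝ) * Complex.I)) :
    Nontrivial (FundamentalGroup C x₀) := by
  by_contra hnt
  rw [not_nontrivial_iff_subsingleton] at hnt
  have h1 : (FundamentalGroup.fromPath (Path.Homotopic.Quotient.mk γ)) =
      (FundamentalGroup.fromPath (Path.Homotopic.Quotient.mk (Path.refl x₀))) :=
    Subsingleton.elim _ _
  have h2 : Path.Homotopic γ (Path.refl x₀) := Path.Homotopic.Quotient.exact h1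
  have h3 : Path.Homotopic (γ.map F.continuous) ((Path.refl x₀).map F.continuous) :=
    h2.map F
  have cov := Complex.isCoveringMap_exp
  have h0 : (F x₀ : ℂ) = 1 := by
    have := hF 0
    simpa using this
  have h4 := cov.liftPath_apply_one_eq_of_homotopicRel
    (γ₀ := (γ.map F.continuous : C(I, {z : ℂ // z ≠ 0})))
    (γ₁ := ((Path.refl x₀).map F.continuous : C(I, {z : ℂ // z ≠ 0}))) h3 0
    (by apply Subtype.ext; simp [h0]) (by apply Subtype.ext; simp [h0])
  have h5 : (⟨fun t : I => 2 * Real.pi * (t : ℝ) * Complex.I, by fun_prop⟩ : C(I, ℂ)) =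
      cov.liftPath (γ.map F.continuous : C(I, {z : ℂ // z ≠ 0})) 0
        (by apply Subtype.ext; simp [h0]) := by
    rw [cov.eq_liftPath_iff']
    refine ⟨?_, by simp⟩
    funext t
    apply Subtype.ext
    simp [hF]
  have h6 : (⟨fun t : I => 0, by fun_prop⟩ : C(I, ℂ)) =
      cov.liftPath ((Path.refl x₀).map F.continuous : C(I, {z : ℂ // z ≠ 0})) 0
        (by apply Subtype.ext; simp [h0]) := by
    rw [cov.eq_liftPath_iff']
    refine ⟨?_, by simp⟩
    funext t
    apply Subtype.ext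
    simp [h0]
  rw [← h5, ← h6] at h4
  simp at h4


section final

variable {E : Type*} [NormedAddCommGroup E] [NormedSpace ℝ E]

lemma isOpen_Om (co : Fin 4 → E →L[ℝ] ℝ) : IsOpen (Om co) := by
  have e : (Om co)ᶜ = {p | co 2 p + 3 * co 3 p - 2 * co 0 p + 16 * |co 1 p| ≤ 8} ∩
        {p | co 0 p + |co 1 p| ≤ 1} ∪
      ({p | 3 * co 2 p + co 3 p + 2 * co 0 p + 16 * |co 1 p| ≤ 8} ∩ {p | -co 0 p + |co 1 p| ≤ 1} ∪
      ({p | co 0 p ≤ |co 1 p| - 1} ∩ {p | 1 - |co 1 p| ≤ co 3 p} ∪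
      ({p | 1 - |co 1 p| ≤ co 0 p} ∩ {p | 1 - |co 1 p| ≤ co 2 p} ∪ {p | 1 ≤ |co 1 p|}))) := by
    ext p; simp only [Om, CK, CA, CB, C1, C2, C3, mem_compl_iff, Set.mem_ofPred_eq, not_not,
      mem_union, mem_inter_iff]
  rw [← isClosed_compl_iff, e]
  refine ((isClosed_le (by fun_prop) (by fun_prop)).inter (isClosed_le (by fun_prop) (by fun_prop))).union
    (((isClosed_le (by fun_prop) (by fun_prop)).inter (isClosed_le (by fun_prop) (by fun_prop))).union
    (((isClosed_le (by fun_prop) (by fun_prop)).inter (isClosed_le (by fun_prop) (by fun_prop))).union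
    (((isClosed_le (by fun_prop) (by fun_prop)).inter (isClosed_le (by fun_prop) (by fun_prop))).union
    (isClosed_le (by fun_prop) (by fun_prop)))))

lemma twoConvex_Om (co : Fin 4 → E →L[ℝ] ℝ) : TwoConvex (Om co) := by
  rw [← compl_compl (Om co)]
  apply twoConvex_compl _ (isOpen_Om co).isClosed_compl
  intro k hk
  have hk' : CK (co 0 k) (co 1 k) (co 2 k) (co 3 k) := by
    simpa [Om] using hk
  obtain ⟨a, b, hab⟩ := flatAll _ _ _ _ hk'
  let G : (Fin 4 → ℝ) → (E →ₗ[ℝ] ℝ) := fun a =>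
    a 0 • (co 0).toLinearMap + a 1 • (co 1).toLinearMap
    + a 2 • (co 2).toLinearMap + a 3 • (co 3).toLinearMap
  have hG : ∀ a d, G a d = a 0 * co 0 d + a 1 * co 1 d + a 2 * co 2 d + a 3 * co 3 d := by
    intro a d; simp [G]
  refine ⟨G a, G b, fun d hd1 hd2 => ?_⟩
  rw [hG] at hd1 hd2
  filter_upwards [hab _ _ _ _ hd1 hd2] with s hs
  simpa [Om] using hs

variable (co : Fin 4 → E →L[ℝ] ℝ) (ev : Fin 4 → E)
  (hce : ∀ j k, co j (ev k) = if j = k then 1 else 0)

/-- The plane. -/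
def Pl : AffineSubspace ℝ E := (Submodule.span ℝ (range (fun i : Fin 2 => ev (Fin.castLE (by omega) i)))).toAffineSubspace

include hce in
lemma finrank_Pl : Module.finrank ℝ (Pl ev).direction = 2 := by
  have h1 : LinearIndependent ℝ (fun i : Fin 2 => ev (Fin.castLE (by omega) i)) := by
    rw [Fintype.linearIndependent_iff]
    intro g hg i
    rw [Fin.sum_univ_two] at hg
    have h0 := congrArg (co 0) hg
    have h1 := congrArg (co 1) hg
    simp [hce] at h0 h1
    fin_cases i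
    · simpa using h0
    · simpa using h1
  rw [Pl, Submodule.toAffineSubspace_direction, finrank_span_eq_card h1]
  simp

lemma mem_Pl (x y : ℝ) : x • ev 0 + y • ev 1 ∈ Pl ev := by
  rw [Pl, Submodule.mem_toAffineSubspace]
  refine Submodule.add_mem _ (Submodule.smul_mem _ _ (Submodule.subset_span ⟨0, rfl⟩))
    (Submodule.smul_mem _ _ (Submodule.subset_span ⟨1, rfl⟩))

include hce in
lemma Pl_coord {p : E} (hp : p ∈ Pl ev) : co 2 p = 0 ∧ co 3 p = 0 := by
  rw [Pl, Submodule.mem_toAffineSubspace] at hp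
  have : Submodule.span ℝ (range (fun i : Fin 2 => ev (Fin.castLE (by omega) i)))
      ≤ LinearMap.ker (co 2).toLinearMap ⊓ LinearMap.ker (co 3).toLinearMap := by
    rw [Submodule.span_le]
    rintro _ ⟨i, rfl⟩
    fin_cases i <;> simp [hce]
  exact this hp

/-- coordinates of the loop -/
lemma loop_coord {c s : ℝ} (h : c ^ 2 + s ^ 2 = 1) : ¬ CK (5 * c) (9 / 10 * s) 0 0 := by
  have hs : |s| ≤ 1 := by
    rw [abs_le]; constructor <;> nlinarith
  have hs0 := abs_nonneg s
  have hs2 : |s| ^ 2 = s ^ 2 := sq_abs s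
  have e : |9 / 10 * s| = 9 / 10 * |s| := by rw [abs_mul, abs_of_pos (by norm_num)]
  rw [not_CK_iff, e]
  refine ⟨by linarith, fun h1 => ?_, fun h1 => ?_, fun h1 => by linarith, fun h1 => by linarith⟩
  · by_contra h2
    push Not at h2
    nlinarith
  · by_contra h2
    push Not at h2
    nlinarith

/-- the loop in the ambient space -/
noncomputable def lp (θ : ℝ) : E := (5 * Real.cos θ) • ev 0 + (9 / 10 * Real.sin θ) • ev 1

include hce in
lemma lp_mem (θ : ℝ) : lp ev θ ∈ Om co ∩ (Pl ev : Set E) := by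
  refine ⟨?_, mem_Pl ev _ _⟩
  rw [mem_Om]
  have := loop_coord (Real.cos_sq_add_sin_sq θ)
  simpa [lp, hce] using this

lemma continuous_lp : Continuous (lp ev) := by
  unfold lp; fun_prop

include hce in
lemma lp_mem' (θ : ℝ) : lp ev θ ∈ connectedComponentIn (Om co ∩ (Pl ev : Set E)) (lp ev 0) := by
  have h1 : IsPreconnected (range (lp ev)) := isPreconnected_range (continuous_lp ev)
  exact h1.subset_connectedComponentIn ⟨0, rfl⟩
    (by rintro _ ⟨θ, rfl⟩; exact lp_mem co ev hce θ) ⟨θ, rfl⟩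

include hce in
theorem nontrivial_section :
    Nontrivial (FundamentalGroup (connectedComponentIn (Om co ∩ (Pl ev : Set E)) (lp ev 0))
      ⟨lp ev 0, mem_connectedComponentIn (lp_mem co ev hce 0)⟩) := by
  have h1 : ∀ θ : ℝ, θ = 0 ∨ θ = 2 * Real.pi → lp ev θ = lp ev 0 := by
    rintro θ (rfl | rfl) <;> simp [lp]
  let γ : Path (⟨lp ev 0, mem_connectedComponentIn (lp_mem co ev hce 0)⟩ :
      connectedComponentIn (Om co ∩ (Pl ev : Set E)) (lp ev 0))
      ⟨lp ev 0, mem_connectedComponentIn (lp_mem co ev hce 0)⟩ :=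
    { toFun := fun t => ⟨lp ev (2 * Real.pi * t), lp_mem' co ev hce _⟩
      continuous_toFun := by
        have := continuous_lp ev
        fun_prop
      source' := by apply Subtype.ext; simp
      target' := by apply Subtype.ext; simpa using h1 _ (Or.inr rfl) }
  let F : C(connectedComponentIn (Om co ∩ (Pl ev : Set E)) (lp ev 0), {z : ℂ // z ≠ 0}) :=
    { toFun := fun p => ⟨((co 0 (p : E) / 5 : ℝ) : ℂ) + ((co 1 (p : E) / (9 / 10) : ℝ) : ℂ) * Complex.I, by
        intro h0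
        have hx : co 0 (p : E) = 0 := by
          have := congrArg Complex.re h0
          simp only [Complex.add_re, Complex.ofReal_re, Complex.mul_re, Complex.I_re, mul_zero,
            Complex.ofReal_im, Complex.I_im, mul_one, sub_zero, add_zero, Complex.zero_re] at this
          linarith
        have hy : co 1 (p : E) = 0 := by
          have := congrArg Complex.im h0
          simp only [Complex.add_im, Complex.ofReal_re, Complex.mul_im, Complex.I_re, mul_zero,
            Complex.ofReal_im, Complex.I_im, mul_one, zero_add, add_zero, Complex.zero_im] at this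
          linarith
        have hp := connectedComponentIn_subset _ _ p.2
        have hzt := Pl_coord co ev hce hp.2
        have h2 := mem_Om.1 hp.1
        rw [hx, hy, hzt.1, hzt.2] at h2
        apply h2
        left
        constructor <;> norm_num⟩
      continuous_toFun := by fun_prop }
  refine nontrivial_of_winding _ γ F (fun t => ?_)
  have h2 : Complex.exp (2 * Real.pi * (t : ℝ) * Complex.I) =
      Complex.exp (((2 * Real.pi * (t : ℝ) : ℝ) : ℂ) * Complex.I) := by
    push_cast; rfl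
  rw [h2, Complex.exp_mul_I, ← Complex.ofReal_cos, ← Complex.ofReal_sin]
  change ((co 0 (lp ev (2 * Real.pi * t)) / 5 : ℝ) : ℂ) +
    ((co 1 (lp ev (2 * Real.pi * t)) / (9 / 10) : ℝ) : ℂ) * Complex.I = _
  have c0 : co 0 (lp ev (2 * Real.pi * t)) / 5 = Real.cos (2 * Real.pi * t) := by
    simp [lp, hce]
  have c1 : co 1 (lp ev (2 * Real.pi * t)) / (9 / 10) = Real.sin (2 * Real.pi * t) := by
    simp [lp, hce]
  rw [c0, c1]

end final

/-- **The question has a negative answer in every dimension `n ≥ 4`.** -/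
theorem result : ∀ n : ℕ, 4 ≤ n → ∃ Ω : Set (EuclideanSpace ℝ (Fin n)),
    IsOpen Ω ∧ ContractibleSpace Ω ∧ SimplyConnectedSpace Ω ∧ TwoConvex Ω ∧
    ∃ P : AffineSubspace ℝ (EuclideanSpace ℝ (Fin n)),
      Module.finrank ℝ P.direction = 2 ∧ ∃ x, ∃ hx : x ∈ Ω ∩ (P : Set (EuclideanSpace ℝ (Fin n))),
        ¬ SimplyConnectedSpace
          (connectedComponentIn (Ω ∩ (P : Set (EuclideanSpace ℝ (Fin n)))) x) ∧
        Nontrivial (FundamentalGroup
          (connectedComponentIn (Ω ∩ (P : Set (EuclideanSpace ℝ (Fin n)))) x)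
          ⟨x, mem_connectedComponentIn hx⟩) := by
  intro n hn
  let co : Fin 4 → EuclideanSpace ℝ (Fin n) →L[ℝ] ℝ := fun k =>
    EuclideanSpace.proj (Fin.castLE hn k)
  let ev : Fin 4 → EuclideanSpace ℝ (Fin n) := fun k => EuclideanSpace.single (Fin.castLE hn k) 1
  have hce : ∀ j k, co j (ev k) = if j = k then 1 else 0 := by
    intro j k
    simp [co, ev, Fin.castLE_inj]
  have hc : ContractibleSpace (Om co) := contractible_Om co ev hce
  have hnt := nontrivial_section co ev hce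
  refine ⟨Om co, isOpen_Om co, hc, inferInstance, twoConvex_Om co, Pl ev, finrank_Pl co ev hce,
    lp ev 0, lp_mem co ev hce 0, ?_, hnt⟩
  intro hsc
  exact not_subsingleton _ (inferInstance : Subsingleton (FundamentalGroup
    (connectedComponentIn (Om co ∩ (Pl ev : Set _)) (lp ev 0))
    ⟨lp ev 0, mem_connectedComponentIn (lp_mem co ev hce 0)⟩))

end Pool.Agent.Results.MP_a4ef96_gt.PlanarSectionDisproof
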